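import Mathlib
import Pool.Agent.Lib.NKT.Quasi2

set_option autoImplicit false

namespace Pool.Agent.Results.MP_c62493_co.LocallySemicomplete

open Finset
open scoped Classical

/-- Let `G` be a finite loopless digraph and fix one of the three orientations `x → v ← y`,
`x ← v → y`, `x → v → y` of a path of length two. Suppose that the ends `x ≠ y` of every path of this
kind in `G` are adjacent or comparable (every out-neighbour of one is an out-neighbour of the other
and every in-neighbour of this one is an in-neighbour of the other). If `G` has dichromatic number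
at least 3 then `G` contains a subdivision of the bioriented triangle: three distinct branch
vertices `b 0`, `b 1`, `b 2`, and between `b i` and `b (i + 1)` (indices mod 3) one directed path
each way, all six paths internally disjoint. -/
theorem result :
    ∀ (V : Type) [Fintype V] (G : Digraph V),
      (∀ v, ¬ G.Adj v v) →
      ((∀ v x y, G.Adj x v → G.Adj y v → x ≠ y →
          G.Adj x y ∨ G.Adj y x ∨
          (∀ u, (G.Adj x u → G.Adj y u) ∧ (G.Adj u x → G.Adj u y)) ∨
          (∀ u, (G.Adj y u → G.Adj x u) ∧ (G.Adj u y → G.Adj u x))) ∨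
        (∀ v x y, G.Adj v x → G.Adj v y → x ≠ y →
          G.Adj x y ∨ G.Adj y x ∨
          (∀ u, (G.Adj x u → G.Adj y u) ∧ (G.Adj u x → G.Adj u y)) ∨
          (∀ u, (G.Adj y u → G.Adj x u) ∧ (G.Adj u y → G.Adj u x))) ∨
        (∀ v x y, G.Adj x v → G.Adj v y → x ≠ y →
          G.Adj x y ∨ G.Adj y x ∨
          (∀ u, (G.Adj x u → G.Adj y u) ∧ (G.Adj u x → G.Adj u y)) ∨
          (∀ u, (G.Adj y u → G.Adj x u) ∧ (G.Adj u y → G.Adj u x)))) →
      (∀ c : V → Bool, ∃ S : Finset V, S.Nonempty ∧
          (∀ u ∈ S, ∀ v ∈ S, c u = c v) ∧ (∀ u ∈ S, ∃ v ∈ S, G.Adj u v)) →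
      ∃ (b : ℕ → V) (n : ℕ → Bool → ℕ) (P : ℕ → Bool → ℕ → V),
        (∀ i j, i < 3 → j < 3 → b i = b j → i = j) ∧
        (∀ i, i < 3 → ∀ d, 1 ≤ n i d) ∧
        (∀ i, i < 3 →
          P i false 0 = b i ∧ P i false (n i false) = b ((i + 1) % 3) ∧
          P i true 0 = b ((i + 1) % 3) ∧ P i true (n i true) = b i) ∧
        (∀ i, i < 3 → ∀ d, ∀ k, k < n i d → G.Adj (P i d k) (P i d (k + 1))) ∧
        (∀ i, i < 3 → ∀ d, ∀ k, 0 < k → k < n i d → ∀ j, j < 3 → P i d k ≠ b j) ∧
        (∀ i d k i' d' k', i < 3 → i' < 3 → 0 < k → k < n i d → 0 < k' → k' < n i' d' →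
          P i d k = P i' d' k' → i = i' ∧ d = d' ∧ k = k') := by
  intro V _ G hirr hcls hcol
  have hN : Pool.Agent.Lib.NKT.Neck G.Adj := by
    by_contra hN
    rcases hcls with h | h | h
    · refine Pool.Agent.Lib.NKT.colr_false (Pool.Agent.Lib.NKT.cis_colr hirr ?_ hN) hcol
      intro v _ x _ y _ hx hy hne
      rcases h v x y hx hy hne with h | h | h | h
      · exact Or.inl h
      · exact Or.inr (Or.inl h)
      · exact Or.inr (Or.inr (Or.inl (fun u _ => h u)))
      · exact Or.inr (Or.inr (Or.inr (fun u _ => h u)))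
    · refine Pool.Agent.Lib.NKT.colr_false (Pool.Agent.Lib.NKT.cos_colr hirr ?_ hN) hcol
      intro v _ x _ y _ hx hy hne
      rcases h v x y hx hy hne with h | h | h | h
      · exact Or.inr (Or.inl h)
      · exact Or.inl h
      · exact Or.inr (Or.inr (Or.inl (fun u _ => (h u).symm)))
      · exact Or.inr (Or.inr (Or.inr (fun u _ => (h u).symm)))
    · refine Pool.Agent.Lib.NKT.colr_false (Pool.Agent.Lib.NKT.qc_colr hirr ?_ hN) hcol
      intro x _ v _ y _ hx hy hne
      rcases h v x y hx hy hne with h | h | h | h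
      · exact Or.inl h
      · exact Or.inr (Or.inl h)
      · exact Or.inr (Or.inr (Or.inl (fun u _ => h u)))
      · exact Or.inr (Or.inr (Or.inr (fun u _ => h u)))
  obtain ⟨ℓ, b, n, P, rfl, h⟩ := hN.concl
  exact ⟨b, n, P, h⟩

end Pool.Agent.Results.MP_c62493_co.LocallySemicomplete
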