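import Mathlib
import Pool.Agent.Lib.PR.Odd3

set_option autoImplicit false

namespace Pool.Agent.Results.MP_c62493_co.OddRing

/-- Every finite loopless digraph of dichromatic number at least 3 contains a subdivision of a bioriented cycle of odd
length `ℓ ≥ 3` in which at most one branch vertex is expanded to a directed path: `N 0, ..., N m` is a directed path,
the entry `a i` and the exit `b i` of the branch vertex `i` are equal for `i ≠ 0`, and `a 0 = N 0`, `b 0 = N m`. -/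
theorem result :
    ∀ (V : Type) [Fintype V] (G : Digraph V),
      (∀ v, ¬ G.Adj v v) →
      (∀ c : V → Bool, ∃ S : Finset V, S.Nonempty ∧
          (∀ u ∈ S, ∀ v ∈ S, c u = c v) ∧ (∀ u ∈ S, ∃ v ∈ S, G.Adj u v)) →
      ∃ (ℓ : ℕ) (m : ℕ) (N : ℕ → V) (a b : ℕ → V) (n : ℕ → Bool → ℕ) (P : ℕ → Bool → ℕ → V),
        3 ≤ ℓ ∧ ℓ % 2 = 1 ∧
        a 0 = N 0 ∧ b 0 = N m ∧ (∀ k, k < m → G.Adj (N k) (N (k + 1))) ∧
        (∀ k k', k ≤ m → k' ≤ m → N k = N k' → k = k') ∧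
        (∀ i, 0 < i → i < ℓ → a i = b i) ∧
        (∀ i j, 0 < i → i < ℓ → 0 < j → j < ℓ → b i = b j → i = j) ∧
        (∀ i k, 0 < i → i < ℓ → k ≤ m → b i ≠ N k) ∧
        (∀ i, i < ℓ → ∀ d, 1 ≤ n i d) ∧
        (∀ i, i < ℓ →
          P i false 0 = b i ∧ P i false (n i false) = a ((i + 1) % ℓ) ∧
          P i true 0 = b ((i + 1) % ℓ) ∧ P i true (n i true) = a i) ∧
        (∀ i, i < ℓ → ∀ d, ∀ k, k < n i d → G.Adj (P i d k) (P i d (k + 1))) ∧
        (∀ i, i < ℓ → ∀ d, ∀ k, 0 < k → k < n i d →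
          (∀ j, j < ℓ → P i d k ≠ b j) ∧ (∀ j, j ≤ m → P i d k ≠ N j)) ∧
        (∀ i d k i' d' k', i < ℓ → i' < ℓ → 0 < k → k < n i d → 0 < k' → k' < n i' d' →
          P i d k = P i' d' k' → i = i' ∧ d = d' ∧ k = k') := by
  intro V _ G hirr hcol
  by_contra hcon
  have hN : ¬ Pool.Agent.Lib.PR.NRo G.Adj := fun h => hcon h.concl
  obtain ⟨c, hc⟩ := Pool.Agent.Lib.PR.two_col_odd hirr hN Finset.univ
  obtain ⟨S, hS, hmono, hout⟩ := hcol c
  obtain ⟨u, hu⟩ := hS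
  refine Pool.Agent.Lib.PR.ac_sinkO (hc (c u)) ?_ ⟨u, hu⟩ hout
  intro v hv
  simp only [Finset.mem_filter, Finset.mem_univ, true_and]
  exact hmono v hv u hu

end Pool.Agent.Results.MP_c62493_co.OddRing
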