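import Mathlib
import Pool.Agent.Lib.PLQ.Dbl

set_option autoImplicit false

namespace Pool.Agent.Results.MP_c62493_co.PlanarRing

open Finset
open scoped Classical
open Pool.Agent.Lib.PLQ

/-- Every planar digraph of dichromatic number at least 3 contains a subdivision of a bioriented
cycle of length at least 3.  Planarity: there is a connected plane multigraph, given by its darts
`D`, the rotation `σ` of the darts around the vertices, the involution `τ` sending a dart to the
opposite dart of the same edge and the vertex `vt d` of each dart, with vertices in `V`, such that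
the ends of each arc of `G` are joined by an edge of the multigraph.  The vertices of the multigraph
are the orbits of `σ`, the faces are the orbits of `τ * σ`, and Euler's formula
`vertices + faces = edges + 2` says that the map is plane. -/
theorem result :
    ∀ (V : Type) [Fintype V] (G : Digraph V),
      (∀ v, ¬ G.Adj v v) →
      (∃ (D : Type) (_ : Fintype D) (σ τ : Equiv.Perm D) (vt : D → V),
        (∀ d, τ (τ d) = d) ∧ (∀ d, τ d ≠ d) ∧
        (∀ d e, vt d = vt e ↔ σ.SameCycle d e) ∧
        (∀ d e, Relation.ReflTransGen (fun x y => y = σ x ∨ y = τ x) d e) ∧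
        2 * (Nat.card (Quotient (Equiv.Perm.SameCycle.setoid σ)) +
          Nat.card (Quotient (Equiv.Perm.SameCycle.setoid (τ * σ)))) = Fintype.card D + 4 ∧
        (∀ u v, G.Adj u v → ∃ d, vt d = u ∧ vt (τ d) = v)) →
      (∀ c : V → Bool, ∃ S : Finset V, S.Nonempty ∧
          (∀ u ∈ S, ∀ v ∈ S, c u = c v) ∧ (∀ u ∈ S, ∃ v ∈ S, G.Adj u v)) →
      ∃ (ℓ : ℕ) (b : ℕ → V) (n : ℕ → Bool → ℕ) (P : ℕ → Bool → ℕ → V),
        3 ≤ ℓ ∧
        (∀ i j, i < ℓ → j < ℓ → b i = b j → i = j) ∧
        (∀ i, i < ℓ → ∀ d, 1 ≤ n i d) ∧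
        (∀ i, i < ℓ →
          P i false 0 = b i ∧ P i false (n i false) = b ((i + 1) % ℓ) ∧
          P i true 0 = b ((i + 1) % ℓ) ∧ P i true (n i true) = b i) ∧
        (∀ i, i < ℓ → ∀ d, ∀ k, k < n i d → G.Adj (P i d k) (P i d (k + 1))) ∧
        (∀ i, i < ℓ → ∀ d, ∀ k, 0 < k → k < n i d → ∀ j, j < ℓ → P i d k ≠ b j) ∧
        (∀ i d k i' d' k', i < ℓ → i' < ℓ → 0 < k → k < n i d → 0 < k' → k' < n i' d' →
          P i d k = P i' d' k' → i = i' ∧ d = d' ∧ k = k') := by
  intro V _ G hirr hpl hcol
  obtain ⟨D, _, σ, τ, vt, ht, hfix, hv, hconn, heul, hcov⟩ := hpl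
  refine planar_ring' G hirr σ τ vt ht hfix hv ?_ heul hcov hcol
  intro p h1 h2 d e hd
  have key : ∀ e, Relation.ReflTransGen (fun x y => y = σ x ∨ y = τ x) d e → p e := by
    intro e he
    induction he with
    | refl => exact hd
    | tail _ h ih =>
      rcases h with h | h
      · rw [h]; exact (h1 _).mpr ih
      · rw [h]; exact (h2 _).mpr ih
  exact key e (hconn d e)

end Pool.Agent.Results.MP_c62493_co.PlanarRing
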