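import Mathlib
import Pool.Agent.Lib.TriFive.Main

set_option autoImplicit false

namespace Pool.Agent.Results.MP_c62493_co.TriangleFive

open Finset
open scoped Classical
open Pool.Agent.Lib.TriFive

/-- Every finite loopless digraph whose vertices cannot be 4-coloured with all colour classes
acyclic (dichromatic number at least 5) contains a subdivision of the bioriented triangle: three
distinct branch vertices `b 0`, `b 1`, `b 2`, and between `b i` and `b (i + 1)` (indices mod 3)
one directed path each way, all six paths internally disjoint. -/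
theorem result :
    ∀ (V : Type) [Fintype V] (G : Digraph V),
      (∀ v, ¬ G.Adj v v) →
      (∀ c : V → Fin 4, ∃ S : Finset V, S.Nonempty ∧
          (∀ u ∈ S, ∀ v ∈ S, c u = c v) ∧ (∀ u ∈ S, ∃ v ∈ S, G.Adj u v)) →
      ∃ (b : ℕ → V) (n : ℕ → Bool → ℕ) (P : ℕ → Bool → ℕ → V),
        (∀ i j, i < 3 → j < 3 → b i = b j → i = j) ∧
        (∀ i, i < 3 → ∀ d, 1 ≤ n i d) ∧
        (∀ i, i < 3 →
          P i false 0 = b i ∧ P i false (n i false) = b ((i + 1) % 3) ∧
          P i true 0 = b ((i + 1) % 3) ∧ P i true (n i true) = b i) ∧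
        (∀ i, i < 3 → ∀ d, ∀ k, k < n i d → G.Adj (P i d k) (P i d (k + 1))) ∧
        (∀ i, i < 3 → ∀ d, ∀ k, 0 < k → k < n i d → ∀ j, j < 3 → P i d k ≠ b j) ∧
        (∀ i d k i' d' k', i < 3 → i' < 3 → 0 < k → k < n i d → 0 < k' → k' < n i' d' →
          P i d k = P i' d' k' → i = i' ∧ d = d' ∧ k = k') := by
  intro V _ G hirr hcol
  by_cases hN : Neck G.Adj 2
  · exact hN.concl (le_refl 2)
  exfalso
  obtain ⟨c, hc⟩ := colr_all hirr hN _ (Finset.univ : Finset V) (le_refl _)
  obtain ⟨S, hne, hmono, hsink⟩ := hcol (fun v =>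
    (if (c v).1 then 2 else 0) + (if (c v).2 then 1 else 0))
  have hinj : ∀ p q : Bool × Bool, ((if p.1 then 2 else 0) + (if p.2 then 1 else 0) : Fin 4) =
      (if q.1 then 2 else 0) + (if q.2 then 1 else 0) → p = q := by decide
  obtain ⟨u0, hu0⟩ := hne
  exact (hc S (subset_univ _) (fun u hu v hv => hinj _ _ (hmono u hu v hv))).sink
    (Subset.refl _) ⟨u0, hu0⟩ hsink

end Pool.Agent.Results.MP_c62493_co.TriangleFive
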